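import Pool.Agent.BEJ.Stmts

set_option autoImplicit false

/-!
# Squad BEJ (MP_be01ff_an), row ZAS: the zeros of the Bessel function
-/

namespace Pool.Agent.BEJ.H75

open Set Filter Topology MeasureTheory
open Pool.Agent.BE01 Pool.Agent.BED Pool.Agent.BEJ

/-- the product of WAS -/
noncomputable def ww (x : ℝ) : ℂ :=
  ((2 * Real.sqrt (x / Real.pi) : ℝ) : ℂ) * Complex.exp (-(Real.pi / 4 * Complex.I)) * QQ 0 x

theorem key (x : ℝ) : 2 * Real.sqrt (x / Real.pi) * yy x =
    Real.sin (x + Real.pi / 4) * (ww x).re + Real.cos (x + Real.pi / 4) * (ww x).im := by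
  have h1 : ((2 * Real.sqrt (x / Real.pi) : ℝ) : ℂ) * (Complex.exp (x * Complex.I) * QQ 0 x) =
      Complex.exp (((x + Real.pi / 4 : ℝ) : ℂ) * Complex.I) * ww x := by
    have h2 : Complex.exp (x * Complex.I) =
        Complex.exp (((x + Real.pi / 4 : ℝ) : ℂ) * Complex.I) *
          Complex.exp (-(Real.pi / 4 * Complex.I)) := by
      rw [← Complex.exp_add]
      congr 1
      push_cast
      ring
    rw [h2]
    unfold ww
    ring
  have h3 := congrArg Complex.im h1
  rw [Complex.im_ofReal_mul] at h3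
  unfold yy
  rw [h3, Complex.mul_im, Complex.exp_ofReal_mul_I_re, Complex.exp_ofReal_mul_I_im]
  ring

theorem zero_iff {c : ℝ} (hc : c ≠ 0) (h : ∀ x : ℝ, 0 < x → yy x = c * j0 x) (x : ℝ)
    (hx : 0 < x) : j0 x = 0 ↔ yy x = 0 := by
  rw [h x hx]
  constructor
  · intro h
    rw [h, mul_zero]
  · intro h
    rcases mul_eq_zero.1 h with h | h
    · exact absurd h hc
    · exact h

theorem bounds (hwas : WasStmt) : ∃ C : ℝ, 0 ≤ C ∧ ∀ x : ℝ, 1 ≤ x →
    |(ww x).re - 1| ≤ (1 + C) / x ^ 2 ∧ |(ww x).im + 1 / (8 * x)| ≤ C / x ^ 3 := by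
  obtain ⟨C, hC⟩ := hwas
  refine ⟨|C|, abs_nonneg C, fun x hx => ?_⟩
  have hx0 : (0 : ℝ) < x := by linarith
  have h := hC x hx
  change ‖ww x - (1 - Complex.I / (8 * x) - 9 / (128 * (x : ℂ) ^ 2))‖ ≤ C / x ^ 3 at h
  have hre : (ww x - (1 - Complex.I / (8 * x) - 9 / (128 * (x : ℂ) ^ 2))).re =
      (ww x).re - 1 + 9 / (128 * x ^ 2) := by
    have e1 : (Complex.I / (8 * x) : ℂ) = ((1 / (8 * x) : ℝ) : ℂ) * Complex.I := by
      push_cast
      ring
    have e2 : (9 / (128 * (x : ℂ) ^ 2) : ℂ) = ((9 / (128 * x ^ 2) : ℝ) : ℂ) := by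
      push_cast
      ring
    rw [e1, e2, Complex.sub_re, Complex.sub_re, Complex.sub_re, Complex.one_re,
      Complex.re_ofReal_mul, Complex.I_re, Complex.ofReal_re]
    ring
  have him : (ww x - (1 - Complex.I / (8 * x) - 9 / (128 * (x : ℂ) ^ 2))).im =
      (ww x).im + 1 / (8 * x) := by
    have e1 : (Complex.I / (8 * x) : ℂ) = ((1 / (8 * x) : ℝ) : ℂ) * Complex.I := by
      push_cast
      ring
    have e2 : (9 / (128 * (x : ℂ) ^ 2) : ℂ) = ((9 / (128 * x ^ 2) : ℝ) : ℂ) := by
      push_cast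
      ring
    rw [e1, e2, Complex.sub_im, Complex.sub_im, Complex.sub_im, Complex.one_im,
      Complex.im_ofReal_mul, Complex.I_im, Complex.ofReal_im]
    ring
  have hCx : C / x ^ 3 ≤ |C| / x ^ 3 := by
    apply div_le_div_of_nonneg_right (le_abs_self C) (by positivity)
  have h1 : |(ww x).re - 1 + 9 / (128 * x ^ 2)| ≤ |C| / x ^ 3 := by
    rw [← hre]
    exact (Complex.abs_re_le_norm _).trans (h.trans hCx)
  have h2 : |(ww x).im + 1 / (8 * x)| ≤ |C| / x ^ 3 := by
    rw [← him]
    exact (Complex.abs_im_le_norm _).trans (h.trans hCx)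
  refine ⟨?_, h2⟩
  have h3 : |C| / x ^ 3 ≤ |C| / x ^ 2 := by
    apply div_le_div_of_nonneg_left (abs_nonneg C) (by positivity)
    exact pow_le_pow_right₀ hx (by norm_num)
  have h4 : 9 / (128 * x ^ 2) ≤ 1 / x ^ 2 := by
    rw [div_le_div_iff₀ (by positivity) (by positivity)]
    nlinarith [sq_nonneg x]
  have h5 : 0 ≤ 9 / (128 * x ^ 2) := by positivity
  have h6 : (1 + |C|) / x ^ 2 = 1 / x ^ 2 + |C| / x ^ 2 := by ring
  rw [h6]
  rw [abs_le] at h1 ⊢
  constructor <;> linarith

/-- at a zero of the sine combination the phase is near a multiple of `π` -/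
theorem phase {x C R I : ℝ} (hC : 0 ≤ C) (hx : 4 * (1 + C) ≤ x) (hR : |R - 1| ≤ (1 + C) / x ^ 2)
    (hI : |I + 1 / (8 * x)| ≤ C / x ^ 3)
    (h0 : Real.sin (x + Real.pi / 4) * R + Real.cos (x + Real.pi / 4) * I = 0) :
    ∃ m : ℤ, |x + Real.pi / 4 - 1 / (8 * x) - Real.pi * m| ≤
      ((4 * (1 + C)) ^ 3 + 4 * (1 + C) * (1 + C) + C + (4 * (1 + C)) ^ 2) / x ^ 3 := by
  set ξ := x + Real.pi / 4 with hξ
  set K := 4 * (1 + C) with hK
  have hx1 : 1 ≤ x := by linarith
  have hx0 : 0 < x := by linarith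
  have hpi := Real.pi_pos
  set m : ℤ := round (ξ / Real.pi) with hm
  set η := ξ - Real.pi * m with hη
  have hη1 : |η| ≤ Real.pi / 2 := by
    have h1 := abs_sub_round (ξ / Real.pi)
    have h2 : η = Real.pi * (ξ / Real.pi - m) := by
      rw [hη]
      field_simp
    rw [h2, abs_mul, abs_of_pos hpi]
    calc Real.pi * |ξ / Real.pi - m| ≤ Real.pi * (1 / 2) :=
          mul_le_mul_of_nonneg_left h1 hpi.le
      _ = Real.pi / 2 := by ring
  have hξη : ξ = η + m * Real.pi := by
    rw [hη]
    ring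
  have hs : Real.sin ξ = (-1) ^ m * Real.sin η := by
    rw [hξη, Real.sin_add_int_mul_pi]
  have hc : Real.cos ξ = (-1) ^ m * Real.cos η := by
    rw [hξη, Real.cos_add_int_mul_pi]
  have h1 : Real.sin η * R + Real.cos η * I = 0 := by
    rw [hs, hc] at h0
    have h2 : (-1 : ℝ) ^ m * (Real.sin η * R + Real.cos η * I) = 0 := by
      linear_combination h0
    rcases mul_eq_zero.1 h2 with h3 | h3
    · exact absurd h3 (zpow_ne_zero m (by norm_num))
    · exact h3
  have hR1 : 1 / 2 ≤ R := by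
    have h2 : (1 + C) / x ^ 2 ≤ 1 / 2 := by
      rw [div_le_iff₀ (by positivity)]
      nlinarith
    rw [abs_le] at hR
    linarith [hR.1]
  have hI1 : |I| ≤ (1 + C) / x := by
    have h2 : C / x ^ 3 ≤ C / x := by
      apply div_le_div_of_nonneg_left hC hx0
      calc x = x ^ 1 := (pow_one x).symm
        _ ≤ x ^ 3 := pow_le_pow_right₀ hx1 (by norm_num)
    have h3 : 1 / (8 * x) ≤ 1 / x := by
      apply div_le_div_of_nonneg_left (by norm_num) hx0
      linarith
    have h4 : (1 + C) / x = 1 / x + C / x := by ring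
    have h5 : 0 < 1 / (8 * x) := by positivity
    rw [h4]
    rw [abs_le] at hI ⊢
    have h6 : 0 < 1 / x := by positivity
    constructor <;> linarith [hI.1, hI.2]
  have hsin : |Real.sin η| ≤ 2 * ((1 + C) / x) := by
    have h2 : Real.sin η * R = -(Real.cos η * I) := by linarith
    have h3 : |Real.sin η| * R ≤ |I| := by
      have h4 : |Real.sin η * R| = |Real.cos η * I| := by rw [h2, abs_neg]
      rw [abs_mul, abs_mul, abs_of_pos (by linarith : (0 : ℝ) < R)] at h4
      rw [h4]
      have h5 := Real.abs_cos_le_one η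
      have h6 := abs_nonneg I
      nlinarith
    have h7 := abs_nonneg (Real.sin η)
    nlinarith
  have hη2 : |η| ≤ K / x := by
    have h2 : 2 / Real.pi * |η| ≤ |Real.sin η| := Real.mul_abs_le_abs_sin hη1
    have h3 : |η| ≤ Real.pi / 2 * |Real.sin η| := by
      have h4 : |η| = Real.pi / 2 * (2 / Real.pi * |η|) := by field_simp
      rw [h4]
      exact mul_le_mul_of_nonneg_left h2 (by positivity)
    have h5 : Real.pi ≤ 4 := Real.pi_le_four
    have h6 : K / x = 4 / 2 * (2 * ((1 + C) / x)) := by rw [hK]; ring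
    rw [h6]
    calc |η| ≤ Real.pi / 2 * |Real.sin η| := h3
      _ ≤ 4 / 2 * (2 * ((1 + C) / x)) := by
        apply mul_le_mul (by linarith) hsin (abs_nonneg _) (by norm_num)
  have hK0 : 0 ≤ K / x := by positivity
  -- the four terms
  have t1 : |η - Real.sin η| ≤ K ^ 3 / x ^ 3 := by
    have h2 : |η| ^ 3 ≤ (K / x) ^ 3 := pow_le_pow_left₀ (abs_nonneg _) hη2 3
    have h3 : |η - Real.sin η| ≤ |η| ^ 3 := by
      have hpos : ∀ t : ℝ, 0 ≤ t → |t - Real.sin t| ≤ |t| ^ 3 := by
        intro t ht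
        have h4 : Real.sin t ≤ t := Real.sin_le ht
        rw [abs_of_nonneg (by linarith), abs_of_nonneg ht]
        rcases eq_or_lt_of_le ht with h | h
        · rw [← h]
          simp
        · rcases le_or_gt t 1 with h5 | h5
          · have h6 := Real.sin_gt_sub_cube h
            have h7 : 0 < t ^ 3 := by positivity
            linarith
          · have h8 : -1 ≤ Real.sin t := Real.neg_one_le_sin t
            rcases le_or_gt t Real.pi with h9 | h9
            · have h10 : 0 ≤ Real.sin t := Real.sin_nonneg_of_nonneg_of_le_pi ht h9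
              nlinarith [sq_nonneg (t - 1), mul_pos h h]
            · have h11 : 3 < t := lt_trans Real.pi_gt_three h9
              nlinarith [sq_nonneg (t - 1), mul_pos h h]
      rcases le_or_gt 0 η with h4 | h4
      · exact hpos η h4
      · have h5 := hpos (-η) (by linarith)
        rw [Real.sin_neg, abs_neg] at h5
        have h6 : -η - -Real.sin η = -(η - Real.sin η) := by ring
        rw [h6, abs_neg] at h5
        exact h5
    calc |η - Real.sin η| ≤ |η| ^ 3 := h3
      _ ≤ (K / x) ^ 3 := h2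
      _ = K ^ 3 / x ^ 3 := by rw [div_pow]
  have t2 : |Real.sin η * (1 - R)| ≤ K * (1 + C) / x ^ 3 := by
    have h2 : |Real.sin η| ≤ K / x := by
      refine hsin.trans ?_
      rw [hK]
      have h3 : 0 ≤ (1 + C) / x := by positivity
      have h4 : 4 * (1 + C) / x = 4 * ((1 + C) / x) := by ring
      rw [h4]
      linarith
    have h3 : |1 - R| ≤ (1 + C) / x ^ 2 := by
      rw [abs_sub_comm]
      exact hR
    rw [abs_mul]
    calc |Real.sin η| * |1 - R| ≤ K / x * ((1 + C) / x ^ 2) :=
          mul_le_mul h2 h3 (abs_nonneg _) hK0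
      _ = K * (1 + C) / x ^ 3 := by
          field_simp
  have t3 : |Real.cos η * (I + 1 / (8 * x))| ≤ C / x ^ 3 := by
    rw [abs_mul]
    have h2 := Real.abs_cos_le_one η
    have h3 := abs_nonneg (I + 1 / (8 * x))
    have h4 := abs_nonneg (Real.cos η)
    nlinarith
  have t4 : |(Real.cos η - 1) / (8 * x)| ≤ K ^ 2 / x ^ 3 := by
    have h2 : 1 - η ^ 2 / 2 ≤ Real.cos η := Real.one_sub_sq_div_two_le_cos
    have h3 : Real.cos η ≤ 1 := Real.cos_le_one η
    have h4 : |Real.cos η - 1| ≤ η ^ 2 := by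
      rw [abs_le]
      constructor <;> nlinarith [sq_nonneg η]
    have h5 : η ^ 2 ≤ (K / x) ^ 2 := by
      rw [← sq_abs η]
      exact pow_le_pow_left₀ (abs_nonneg _) hη2 2
    rw [abs_div, abs_of_pos (by positivity : (0 : ℝ) < 8 * x)]
    calc |Real.cos η - 1| / (8 * x) ≤ (K / x) ^ 2 / (8 * x) :=
          div_le_div_of_nonneg_right (h4.trans h5) (by positivity)
      _ ≤ (K / x) ^ 2 / x := by
          apply div_le_div_of_nonneg_left (by positivity) hx0
          linarith
      _ = K ^ 2 / x ^ 3 := by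
          field_simp
  refine ⟨m, ?_⟩
  have e : ξ - 1 / (8 * x) - Real.pi * m = (η - Real.sin η) + Real.sin η * (1 - R) -
      Real.cos η * (I + 1 / (8 * x)) + (Real.cos η - 1) / (8 * x) := by
    have h2 : ξ - 1 / (8 * x) - Real.pi * m = η - 1 / (8 * x) := by
      rw [hη]
      ring
    rw [h2]
    have h3 : Real.cos η * I = - (Real.sin η * R) := by linarith
    have h4 : Real.cos η * (I + 1 / (8 * x)) = - (Real.sin η * R) + Real.cos η / (8 * x) := by
      rw [mul_add, h3]
      ring
    rw [h4]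
    ring
  rw [e]
  have e2 : (K ^ 3 + K * (1 + C) + C + K ^ 2) / x ^ 3 =
      K ^ 3 / x ^ 3 + K * (1 + C) / x ^ 3 + C / x ^ 3 + K ^ 2 / x ^ 3 := by
    ring
  rw [e2]
  rw [abs_le] at t1 t2 t3 t4 ⊢
  constructor <;> linarith [t1.1, t1.2, t2.1, t2.2, t3.1, t3.2, t4.1, t4.2]

theorem zas (hyde : YdeStmt) (hwas : WasStmt) (hyj : Yj0Stmt) : ZasStmt := by
  obtain ⟨C, hC, hb⟩ := bounds hwas
  obtain ⟨c, hc, hcj⟩ := hyj
  set C' := (4 * (1 + C)) ^ 3 + 4 * (1 + C) * (1 + C) + C + (4 * (1 + C)) ^ 2 with hC'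
  have hC'0 : 0 < C' := by positivity
  obtain ⟨X, hX⟩ := exists_nat_ge (max (4 * (1 + C)) (max (C' + 1) 2))
  have hX1 : 4 * (1 + C) ≤ (X : ℝ) := (le_max_left _ _).trans hX
  have hX2 : C' + 1 ≤ (X : ℝ) := ((le_max_left _ _).trans (le_max_right _ _)).trans hX
  have hX3 : (2 : ℝ) ≤ (X : ℝ) := ((le_max_right _ _).trans (le_max_right _ _)).trans hX
  have first : ∀ x : ℝ, (X : ℝ) ≤ x → j0 x = 0 → ∃ m : ℤ,
      |x + Real.pi / 4 - 1 / (8 * x) - Real.pi * m| ≤ C' / x ^ 3 := by
    intro x hx hj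
    have hx1 : 1 ≤ x := by linarith
    have hx0 : 0 < x := by linarith
    obtain ⟨h1, h2⟩ := hb x hx1
    have h3 : yy x = 0 := (zero_iff hc hcj x hx0).1 hj
    have h4 := key x
    rw [h3, mul_zero] at h4
    exact phase hC (hX1.trans hx) h1 h2 h4.symm
  refine ⟨C', X, hC'0, ?_, first, ?_⟩
  · have : (1 : ℝ) ≤ X := by linarith
    exact_mod_cast this
  · intro k hk
    have hk' : (X : ℝ) ≤ k := by exact_mod_cast hk
    have hpi3 := Real.pi_gt_three
    have hpi4 := Real.pi_le_four
    set x1 := Real.pi * k - Real.pi / 2 - Real.pi / 4 with hx1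
    set x2 := Real.pi * k + Real.pi / 2 - Real.pi / 4 with hx2
    have hk2 : (2 : ℝ) ≤ k := by linarith
    have hx1k : (k : ℝ) ≤ x1 := by
      rw [hx1]
      have : Real.pi < 3.15 := Real.pi_lt_d2
      nlinarith
    have hx12 : x1 ≤ x2 := by
      rw [hx1, hx2]
      linarith
    have hRpos : ∀ x : ℝ, (k : ℝ) ≤ x → 0 < (ww x).re := by
      intro x hx
      have h1 := (hb x (by linarith)).1
      have h2 : (1 + C) / x ^ 2 ≤ 1 / 2 := by
        rw [div_le_iff₀ (by nlinarith)]
        nlinarith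
      rw [abs_le] at h1
      linarith [h1.1]
    have hA : ∀ x : ℝ, (k : ℝ) ≤ x → 0 < 2 * Real.sqrt (x / Real.pi) := by
      intro x hx
      have : 0 < x / Real.pi := by
        apply div_pos (by linarith) (by linarith)
      positivity
    have hs1 : Real.sin (x1 + Real.pi / 4) = -(-1) ^ k := by
      have e : x1 + Real.pi / 4 = k * Real.pi - Real.pi / 2 := by rw [hx1]; ring
      rw [e, Real.sin_sub_pi_div_two, Real.cos_nat_mul_pi]
    have hc1 : Real.cos (x1 + Real.pi / 4) = 0 := by
      have e : x1 + Real.pi / 4 = k * Real.pi - Real.pi / 2 := by rw [hx1]; ring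
      rw [e, Real.cos_sub_pi_div_two, Real.sin_nat_mul_pi]
    have hs2 : Real.sin (x2 + Real.pi / 4) = (-1) ^ k := by
      have e : x2 + Real.pi / 4 = k * Real.pi + Real.pi / 2 := by rw [hx2]; ring
      rw [e, Real.sin_add_pi_div_two, Real.cos_nat_mul_pi]
    have hc2 : Real.cos (x2 + Real.pi / 4) = 0 := by
      have e : x2 + Real.pi / 4 = k * Real.pi + Real.pi / 2 := by rw [hx2]; ring
      rw [e, Real.cos_add_pi_div_two, Real.sin_nat_mul_pi, neg_zero]
    have k1 := key x1
    have k2 := key x2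
    rw [hs1, hc1, zero_mul, add_zero] at k1
    rw [hs2, hc2, zero_mul, add_zero] at k2
    have hcont : ContinuousOn yy (Icc x1 x2) := by
      intro x hx
      exact (hyde x (by linarith [hx.1])).1.continuousAt.continuousWithinAt
    have hR1 := hRpos x1 hx1k
    have hR2 := hRpos x2 (hx1k.trans hx12)
    have hA1 := hA x1 hx1k
    have hA2 := hA x2 (hx1k.trans hx12)
    have hz : ∃ x ∈ Icc x1 x2, yy x = 0 := by
      rcases Nat.even_or_odd k with he | ho
      · rw [he.neg_one_pow] at k1 k2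
        have y1neg : yy x1 ≤ 0 := by
          by_contra hcon
          push Not at hcon
          have := mul_pos hA1 hcon
          linarith
        have y2pos : 0 ≤ yy x2 := by
          by_contra hcon
          push Not at hcon
          have := mul_neg_of_pos_of_neg hA2 hcon
          linarith
        exact intermediate_value_Icc hx12 hcont ⟨y1neg, y2pos⟩
      · rw [ho.neg_one_pow] at k1 k2
        have y1pos : 0 ≤ yy x1 := by
          by_contra hcon
          push Not at hcon
          have := mul_neg_of_pos_of_neg hA1 hcon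
          linarith
        have y2neg : yy x2 ≤ 0 := by
          by_contra hcon
          push Not at hcon
          have := mul_pos hA2 hcon
          linarith
        exact intermediate_value_Icc' hx12 hcont ⟨y2neg, y1pos⟩
    obtain ⟨x, hx, hyx⟩ := hz
    have hxk : (k : ℝ) ≤ x := hx1k.trans hx.1
    have hx0 : 0 < x := by linarith
    have hj : j0 x = 0 := (zero_iff hc hcj x hx0).2 hyx
    obtain ⟨m, hm⟩ := first x (hk'.trans hxk) hj
    have hmk : m = k := by
      have h1 : C' / x ^ 3 ≤ 1 := by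
        rw [div_le_one (by positivity)]
        have h2 : C' ≤ x := by linarith
        have h3 : x ≤ x ^ 3 := by
          calc x = x ^ 1 := (pow_one x).symm
            _ ≤ x ^ 3 := pow_le_pow_right₀ (by linarith) (by norm_num)
        linarith
      have h4 : 1 / (8 * x) ≤ 1 / 16 := by
        apply div_le_div_of_nonneg_left (by norm_num) (by norm_num)
        linarith
      have h5 : 0 < 1 / (8 * x) := by positivity
      rw [abs_le] at hm
      have h6 := hx.1
      have h7 := hx.2
      rw [hx1] at h6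
      rw [hx2] at h7
      have h8 : Real.pi * ((m : ℝ) - k) < Real.pi * 1 := by nlinarith [hm.1, hm.2]
      have h9 : Real.pi * (-1) < Real.pi * ((m : ℝ) - k) := by nlinarith [hm.1, hm.2]
      have h10 : (m : ℝ) - k < 1 := lt_of_mul_lt_mul_left h8 (by linarith)
      have h11 : (-1 : ℝ) < (m : ℝ) - k := lt_of_mul_lt_mul_left h9 (by linarith)
      have h12 : m - (k : ℤ) < 1 := by exact_mod_cast h10
      have h13 : -1 < m - (k : ℤ) := by exact_mod_cast h11
      omega
    refine ⟨x, hxk, hj, ?_⟩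
    rw [hmk] at hm
    exact_mod_cast hm

end Pool.Agent.BEJ.H75
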